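import Pool.Agent.W218.OG.Orb

/-!
# The primes of Cunningham orbits of the second kind follow every finite pattern up to a bounded error

`a_t(p) = 2 ^ t * (p - 1) + 1`. For all `k` and `m` there is `C` such that for EVERY set `V` of at most
`k` times which contains `0` there is a finite set `H` of times which contains `0`, has at least `m`
elements within `C` of each element of `V` and no other elements, and which is the exact set of the
times of primes for many orbits: for every `R` and `η > 0` there are arbitrarily large `x` with at least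
`x ^ (1 - η)` primes `p ≤ x` such that for all `t ≤ R` the number `a_t(p)` is prime if and only if
`t ∈ H`. So there are clusters of `m` primes of bounded length in the orbits, at arbitrary prescribed
distances from each other, with only composite numbers elsewhere up to any time `R`.

Proof: the coloured Maynard-Tao theorem of the starting files (`Pool.Agent.H732R3.QuarterB`) for the
values of an orbit at prescribed times, all other values being made composite by congruences, and the
argument of `Pool.Agent.H732R3.HausB` (by the density Hales-Jewett theorem) for arbitrary translation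
invariant families of patterns.
-/

namespace Pool.Agent.Results.MP_9f2731_nt.OrbitPatterns

open Filter

theorem result (k m : ℕ) : ∃ C : ℕ, ∀ V : Finset ℕ, 0 ∈ V → V.card ≤ k →
    ∃ H : Finset ℕ, 0 ∈ H ∧ (∀ x ∈ V, m ≤ (H.filter (fun h : ℕ => |(h : ℤ) - x| ≤ C)).card) ∧
      (∀ h ∈ H, ∃ x ∈ V, |(h : ℤ) - x| ≤ C) ∧
      ∀ (R : ℕ) (η : ℝ), 0 < η → ∃ᶠ x : ℝ in atTop,
        x ^ (1 - η) ≤ ({p : ℕ | (p : ℝ) ≤ x ∧ p.Prime ∧
          ∀ t ≤ R, ((2 ^ t * (p - 1) + 1).Prime ↔ t ∈ H)}.ncard : ℝ) := by
  obtain ⟨C, hC⟩ := Pool.Agent.W218.OG.patterns 2 (-1) le_rfl (by norm_num) (by norm_num)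
    (fun p hp h => absurd (Nat.dvd_one.1 (by simpa using h)) hp.one_lt.ne') k m
  refine ⟨C, fun V hV0 hVk => ?_⟩
  obtain ⟨H, h0, h1, h2, h3⟩ := hC V hV0 hVk
  refine ⟨H, h0, h1, h2, fun R η hη => ?_⟩
  refine (h3 R η hη).mono fun x hx => hx.trans (le_of_eq ?_)
  congr 2
  ext p
  have key : p.Prime → ∀ t : ℕ, (Pool.Agent.W218.OG.Pr ((Pool.Agent.H447R3.IT.S 2 (-1))^[t] (p : ℤ)) ↔
      (2 ^ t * (p - 1) + 1).Prime) := by
    intro hp t
    rw [← Pool.Agent.W218.OG.pr_natO]
    have h4 : 1 ≤ p := hp.one_lt.le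
    rw [Pool.Agent.H447R3.IT.iter, Pool.Agent.W218.OG.B_twoO]
    push_cast [Nat.cast_sub h4]
    have e1 : (2 : ℤ) ^ t * p + (-1) * (2 ^ t - 1) = 2 ^ t * (p - 1) + 1 := by ring
    rw [e1]
  simp only [Set.mem_ofPred_eq]
  constructor
  · rintro ⟨⟨h4, h5⟩, h6⟩
    exact ⟨h6, h4, fun t ht => (key h4 t).symm.trans (h5 t ht)⟩
  · rintro ⟨h6, h4, h5⟩
    exact ⟨⟨h4, fun t ht => (key h4 t).trans (h5 t ht)⟩, h6⟩

end Pool.Agent.Results.MP_9f2731_nt.OrbitPatterns
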