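import Pool.Agent.W182.PW.Lin

set_option autoImplicit false

/-!
# Almost prime Cunningham chains of the second kind in all windows around a positive proportion of
the integers

For every `k` there are `r` and `c₁, c₂, K > 0` such that a positive proportion of all integers `n` is
regular: every interval `(a, b]` with `a ≤ n ≤ b` and `K log ^ (k + 1) n ≤ b - a ≤ n` contains between
`c₁ (b - a) / log ^ (k + 1) n` and `c₂ (b - a) / log ^ (k + 1) n` primes `p` for which the next `k`
terms `2 ^ j (p - 1) + 1`, `1 ≤ j ≤ k`, of the Cunningham sequence of the second kind starting with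
`p` have at most `r` prime factors, all larger than `n ^ (1 / r)`.
-/

namespace Pool.Agent.Results.MP_9f2731_nt.RegularWindows

open Finset Filter

/-- `p` is prime and each of the next `k` terms `2 ^ j (p - 1) + 1`, `1 ≤ j ≤ k`, of the sequence
`x ↦ 2 x - 1` has at most `r` prime factors (with multiplicity), all of them larger than `z`. -/
def AlmostChain (k r : ℕ) (z : ℝ) (p : ℕ) : Prop :=
  p.Prime ∧ ∀ j : ℕ, 1 ≤ j → j ≤ k →
    (2 ^ j * (p - 1) + 1).primeFactorsList.length ≤ r ∧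
    ∀ q : ℕ, q.Prime → q ∣ 2 ^ j * (p - 1) + 1 → z < (q : ℝ)

open Classical in
/-- `n` is regular (chains of length `k + 1`). -/
def Regular (k r : ℕ) (c₁ c₂ K : ℝ) (n : ℕ) : Prop :=
  ∀ a b : ℕ, a ≤ n → n ≤ b → K * Real.log n ^ (k + 1) ≤ (b : ℝ) - a → (b : ℝ) - a ≤ n →
    c₁ * ((b : ℝ) - a) / Real.log n ^ (k + 1) ≤
      (((Finset.Ioc a b).filter (fun p => AlmostChain k r ((n : ℝ) ^ (1 / (r : ℝ))) p)).card : ℝ) ∧
    (((Finset.Ioc a b).filter (fun p => AlmostChain k r ((n : ℝ) ^ (1 / (r : ℝ))) p)).card : ℝ) ≤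
      c₂ * ((b : ℝ) - a) / Real.log n ^ (k + 1)

open Pool.Agent.W182.PW

lemma prop_eq (k : ℕ) :
    PrimeAlmost (fun i : Fin k => lin (2 ^ (i.val + 1)) (1 - 2 ^ (i.val + 1))) = AlmostChain k := by
  funext r z p
  apply propext
  unfold PrimeAlmost AlmostChain
  rcases Nat.eq_zero_or_pos p with h0 | h0
  · subst h0
    exact ⟨fun h => absurd h.1 Nat.not_prime_zero, fun h => absurd h.1 Nat.not_prime_zero⟩
  have h1 : ∀ j : ℕ, ((lin (2 ^ j) (1 - 2 ^ j)).eval (p : ℤ)) =
      ((2 ^ j * (p - 1) + 1 : ℕ) : ℤ) := by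
    intro j
    rw [lin_eval]
    push_cast [Nat.cast_sub (show 1 ≤ p from h0)]
    ring
  constructor
  · rintro ⟨h2, h3⟩
    refine ⟨h2, fun j hj1 hj2 => ?_⟩
    obtain ⟨i, rfl⟩ : ∃ i, j = i + 1 := ⟨j - 1, by omega⟩
    have h4 := h3 ⟨i, by omega⟩
    simp only [h1, Int.natAbs_natCast] at h4
    exact ⟨h4.1, fun q hq hd => h4.2 q hq (Int.natCast_dvd_natCast.2 hd)⟩
  · rintro ⟨h2, h3⟩
    refine ⟨h2, fun i => ?_⟩
    have h4 := h3 (i.val + 1) (by omega) (by have := i.isLt; omega)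
    simp only [h1, Int.natAbs_natCast]
    exact ⟨h4.1, fun q hq hd => h4.2 q hq (Int.natCast_dvd_natCast.1 hd)⟩

lemma reg_eq (k : ℕ) :
    RegularP (fun i : Fin k => lin (2 ^ (i.val + 1)) (1 - 2 ^ (i.val + 1))) (k + 1) = Regular k := by
  funext r c₁ c₂ K n
  unfold RegularP Regular
  rw [prop_eq]

open Classical in
/-- **Almost prime Cunningham chains of the second kind: regular windows.** For every `k`, for some
`r` and positive `c₁, c₂, K, κ` and all large `x` at least `κ x` of the integers `n` in `[1, x]` are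
regular. -/
theorem result (k : ℕ) : ∃ (r : ℕ) (c₁ c₂ K κ : ℝ), 0 < c₁ ∧ 0 < c₂ ∧ 0 < K ∧ 0 < κ ∧
    ∀ᶠ x : ℕ in atTop,
      κ * x ≤ (((Finset.Icc 1 x).filter (fun n => Regular k r c₁ c₂ K n)).card : ℝ) := by
  have h := main_lin (k := k) (fun i => 2 ^ (i.val + 1)) (fun i => 1 - 2 ^ (i.val + 1))
    (fun _ => by positivity)
    (fun i => ⟨1, 1, by push_cast; ring⟩)
    (fun i j hij _ => by
      apply Fin.ext
      have h1 := Nat.pow_right_injective le_rfl hij
      simpa using h1)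
    (fun i h => by
      have h1 : 1 < 2 ^ (i.val + 1) := Nat.one_lt_two_pow (by omega)
      omega)
    (by
      intro p hp
      refine ⟨1, fun h => hp.one_lt.ne' (Nat.dvd_one.1 h), fun i h => ?_⟩
      have h1 : (p : ℤ) ∣ ((1 : ℕ) : ℤ) := by
        have h2 : ((2 ^ (i.val + 1) : ℕ) : ℤ) * ((1 : ℕ) : ℤ) + (1 - 2 ^ (i.val + 1)) =
            ((1 : ℕ) : ℤ) := by
          push_cast
          ring
        rw [← h2]
        exact h
      rw [Int.natCast_dvd_natCast] at h1
      exact hp.one_lt.ne' (Nat.dvd_one.1 h1))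
  rw [reg_eq] at h
  exact h

end Pool.Agent.Results.MP_9f2731_nt.RegularWindows
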